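import Pool.Agent.Y163.MW.Base

/-! Job MW-C1: Fourier formula for a counting function. -/

set_option autoImplicit false

open Filter Topology

namespace Pool.Agent.Y67.MW.C1

open Pool.Agent.Y163.MW

theorem invol {ι : Type} [Finite ι] (a : ι → ℤ)
    (ha : ∀ r : ℤ, Nat.card {i : ι // a i = r} = Nat.card {i : ι // a i = -r}) :
    ∃ σ : ι ≃ ι, ∀ i, a (σ i) = -a i := by
  have h1 : ∀ r : ℤ, Nonempty ({i : ι // a i = r} ≃ {i : ι // a i = -r}) := fun r =>
    Finite.card_eq.1 (ha r)
  obtain ⟨e⟩ : Nonempty (∀ r : ℤ, {i : ι // a i = r} ≃ {i : ι // a i = -r}) :=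
    ⟨fun r => Classical.choice (h1 r)⟩
  let f : ι → ι := fun i => (e (a i) ⟨i, rfl⟩).1
  have hf : ∀ i, a (f i) = -a i := fun i => (e (a i) ⟨i, rfl⟩).2
  have key : ∀ (r : ℤ) (i : ι) (hi : a i = r), f i = (e r ⟨i, hi⟩).1 := by
    rintro r i rfl
    rfl
  have hinj : Function.Injective f := by
    intro i j hij
    have h2 : a j = a i := by
      have h3 := hf i
      have h4 := hf j
      rw [hij] at h3
      linarith
    rw [key (a i) i rfl, key (a i) j h2] at hij
    exact congrArg Subtype.val ((e (a i)).injective (Subtype.ext hij))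
  exact ⟨Equiv.ofBijective f (Finite.injective_iff_bijective.1 hinj), hf⟩

theorem int_cos (m : ℤ) : ∫ θ in (-Real.pi)..Real.pi, Real.cos (m * θ) =
    if m = 0 then 2 * Real.pi else 0 := by
  split_ifs with h
  · rw [h]
    simp
    ring
  · have hm : (m : ℝ) ≠ 0 := by exact_mod_cast h
    rw [intervalIntegral.integral_comp_mul_left (fun x => Real.cos x) hm, integral_cos]
    have h1 : Real.sin (m * Real.pi) = 0 := Real.sin_int_mul_pi m
    have h2 : Real.sin (m * -Real.pi) = 0 := by
      rw [mul_neg, Real.sin_neg, h1, neg_zero]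
    rw [h1, h2]
    simp

theorem int_cos2 (m : ℤ) : ∫ θ in (-Real.pi)..Real.pi, Real.cos (m * θ) * (1 + Real.cos θ) =
    2 * Real.pi * ((if m = 0 then 1 else 0) + (1 / 2) * (if m = -1 then 1 else 0) +
      (1 / 2) * (if m = 1 then 1 else 0)) := by
  have h1 : ∀ θ : ℝ, Real.cos (m * θ) * (1 + Real.cos θ) =
      Real.cos (m * θ) + ((1 / 2) * Real.cos (((m + 1 : ℤ) : ℝ) * θ) +
        (1 / 2) * Real.cos (((m - 1 : ℤ) : ℝ) * θ)) := by
    intro θ
    push_cast
    rw [add_mul, sub_mul, one_mul, Real.cos_add, Real.cos_sub]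
    ring
  have hc : ∀ r : ℤ, IntervalIntegrable (fun θ : ℝ => Real.cos (r * θ)) MeasureTheory.volume
      (-Real.pi) Real.pi := fun r =>
    (Real.continuous_cos.comp (continuous_const.mul continuous_id)).intervalIntegrable _ _
  simp_rw [h1]
  rw [intervalIntegral.integral_add (hc m) (((hc _).const_mul _).add ((hc _).const_mul _)),
    intervalIntegral.integral_add ((hc _).const_mul _) ((hc _).const_mul _),
    intervalIntegral.integral_const_mul, intervalIntegral.integral_const_mul, int_cos, int_cos,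
    int_cos]
  have e1 : m + 1 = 0 ↔ m = -1 := by omega
  have e2 : m - 1 = 0 ↔ m = 1 := by omega
  simp only [e1, e2]
  split_ifs <;> ring

theorem t : StC1 := by
  classical
  intro ι _ a ha n
  obtain ⟨σ, hσ⟩ := invol a ha
  have hsin : ∀ θ : ℝ, ∑ i, Real.sin (a i * θ) = 0 := by
    intro θ
    have h1 := Equiv.sum_comp σ (fun i => Real.sin (a i * θ))
    have h2 : ∑ i, Real.sin (a (σ i) * θ) = -∑ i, Real.sin (a i * θ) := by
      rw [← Finset.sum_neg_distrib]
      refine Finset.sum_congr rfl fun i _ => ?_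
      rw [hσ]
      push_cast
      rw [neg_mul, Real.sin_neg]
    linarith
  have hexp : ∀ θ : ℝ, ((cs a θ : ℝ) : ℂ) = ∑ i, Complex.exp (((a i * θ : ℝ) : ℂ) * Complex.I) := by
    intro θ
    have h1 : ∀ i, Complex.exp (((a i * θ : ℝ) : ℂ) * Complex.I) =
        ((Real.cos (a i * θ) : ℝ) : ℂ) + ((Real.sin (a i * θ) : ℝ) : ℂ) * Complex.I := by
      intro i
      rw [Complex.exp_mul_I, Complex.ofReal_cos, Complex.ofReal_sin]
    simp_rw [h1]
    rw [Finset.sum_add_distrib, ← Finset.sum_mul, ← Complex.ofReal_sum, ← Complex.ofReal_sum, hsin θ]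
    unfold cs
    simp
  have hpow : ∀ θ : ℝ, cs a θ ^ n = ∑ g : Fin n → ι, Real.cos (((∑ k, a (g k) : ℤ) : ℝ) * θ) := by
    intro θ
    have h1 : ((cs a θ ^ n : ℝ) : ℂ) = ∑ g : Fin n → ι,
        Complex.exp ((((∑ k, a (g k) : ℤ) : ℝ) * θ : ℝ) * Complex.I) := by
      rw [Complex.ofReal_pow, hexp, Fintype.sum_pow]
      refine Finset.sum_congr rfl fun g _ => ?_
      rw [← Complex.exp_sum]
      congr 1
      push_cast
      rw [← Finset.sum_mul, ← Finset.sum_mul]
    have h2 := congrArg Complex.re h1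
    rw [Complex.ofReal_re, Complex.re_sum] at h2
    rw [h2]
    refine Finset.sum_congr rfl fun g _ => ?_
    rw [Complex.exp_ofReal_mul_I_re]
  have hint : ∫ θ in (-Real.pi)..Real.pi, cs a θ ^ n * (1 + Real.cos θ) =
      ∑ g : Fin n → ι, 2 * Real.pi * ((if ∑ k, a (g k) = 0 then 1 else 0) +
        (1 / 2) * (if ∑ k, a (g k) = -1 then 1 else 0) +
        (1 / 2) * (if ∑ k, a (g k) = 1 then 1 else 0)) := by
    simp_rw [hpow, Finset.sum_mul]
    rw [intervalIntegral.integral_finset_sum]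
    · refine Finset.sum_congr rfl fun g _ => ?_
      exact int_cos2 _
    · intro g _
      apply Continuous.intervalIntegrable
      fun_prop
  have hneg : ∑ g : Fin n → ι, (if ∑ k, a (g k) = -1 then (1 : ℝ) else 0) =
      ∑ g : Fin n → ι, (if ∑ k, a (g k) = 1 then (1 : ℝ) else 0) := by
    rw [← Equiv.sum_comp (Equiv.arrowCongr (Equiv.refl (Fin n)) σ)
      (fun g : Fin n → ι => if ∑ k, a (g k) = -1 then (1 : ℝ) else 0)]
    refine Finset.sum_congr rfl fun g _ => ?_
    have h1 : ∑ k, a ((Equiv.arrowCongr (Equiv.refl (Fin n)) σ) g k) = -∑ k, a (g k) := by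
      rw [← Finset.sum_neg_distrib]
      refine Finset.sum_congr rfl fun k _ => ?_
      exact hσ _
    rw [h1]
    have h2 : (-∑ k, a (g k) = -1) ↔ ∑ k, a (g k) = 1 := by
      constructor <;> intro h <;> linarith
    simp only [h2]
  have hcard : (Nat.card {g : Fin n → ι // ∑ k, a (g k) = 0 ∨ ∑ k, a (g k) = 1} : ℝ) =
      ∑ g : Fin n → ι, ((if ∑ k, a (g k) = 0 then (1 : ℝ) else 0) +
        (if ∑ k, a (g k) = 1 then (1 : ℝ) else 0)) := by
    rw [Nat.card_eq_fintype_card, Fintype.card_subtype, Finset.card_filter]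
    push_cast
    refine Finset.sum_congr rfl fun g _ => ?_
    by_cases h1 : ∑ k, a (g k) = 0
    · simp [h1]
    · simp [h1]
  rw [hint, hcard, ← Finset.mul_sum, Finset.sum_add_distrib, Finset.sum_add_distrib,
    Finset.sum_add_distrib, ← Finset.mul_sum, ← Finset.mul_sum, hneg]
  have hpi := Real.pi_ne_zero
  field_simp
  ring

end Pool.Agent.Y67.MW.C1
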